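import Pool.Agent.FCI.Tor
import Pool.Agent.FCI.Cmp

/-!
# MP_d3ff36_gt.CodimTwo
-/

open scoped BigOperators Topology ContDiff Manifold
open Set
open Pool.Agent.TUB (E besselJ jz Imm CurvLE)
open Pool.Agent.FCI

namespace Pool.Agent.Results.MP_d3ff36_gt.CodimTwo

theorem result {m n : ℕ} (hm : 1 ≤ m) (hmn : m < n) (hn2 : n ≤ m + 2) :
    IsLeast {x : ℝ | 0 < x ∧ besselJ ((n : ℝ) / 2 - 1) x = 0} (jz ((n : ℝ) / 2 - 1)) ∧
    (∀ (X : Type) [TopologicalSpace X] [CompactSpace X] [ChartedSpace (E m) X] [IsManifold (𝓡 m) ∞ X],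
      (∃ (N : ℕ) (h : X → E N), ContMDiff (𝓡 m) 𝓘(ℝ, E N) ∞ h ∧
        ∀ D : ℝ, 0 < D → ∃ p : E m → X, ContMDiff 𝓘(ℝ, E m) (𝓡 m) ∞ p ∧
          ∀ x : E m, (∀ i, |x i| ≤ 1) → ∀ v i, D * |v i| ≤ ‖fderiv ℝ (h ∘ p) x v‖) →
      ∀ f : X → E n, Imm m f → (∀ x, ‖f x‖ ≤ 1) → ∀ c : ℝ, CurvLE m f c →
        2 * jz ((n : ℝ) / 2 - 1) / (((n : ℝ) - m) * Real.pi) - 1 ≤ c) ∧
    (∀ f : E m → E n, ContDiff ℝ ∞ f → (∀ x, Function.Injective (fderiv ℝ f x)) →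
      (∀ x i, f (x + EuclideanSpace.single i 1) = f x) → (∀ x, ‖f x‖ ≤ 1) → ∀ c : ℝ, CurvLE m f c →
      2 * jz ((n : ℝ) / 2 - 1) / (((n : ℝ) - m) * Real.pi) - 1 ≤ c) := by
  have hn : (1 : ℝ) ≤ n := by exact_mod_cast (show 1 ≤ n by omega)
  refine ⟨(Pool.Agent.TUB.jz_eq hn).2, ?_, ?_⟩
  · rintro X _ _ _ _ ⟨N, h, hh, hw⟩ f hf hball c hc
    obtain ⟨C, hC0, hC⟩ := cmp_imm hf hh
    refine final_form hmn (codim_two hm hmn hn2 hf hball hc fun D hD => ?_)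
    obtain ⟨p, hp, hwd⟩ := hw (C * D) (by positivity)
    refine ⟨p, hp, fun x hx v i => ?_⟩
    have h1 := (hwd x hx v i).trans (cmp_along hf hh hC hp x v)
    rw [mul_assoc] at h1
    exact le_of_mul_le_mul_left h1 hC0
  · intro f hf hinj hper hball c hc
    obtain ⟨c0, hc0, hlow⟩ := per_lower hf hper hinj
    have hI := tor_imm hf hinj
    refine final_form hmn (codim_two hm hmn hn2 hI hball hc fun D hD => ?_)
    obtain ⟨h1, h2⟩ := wide_of_lower hI (p := fun x => x) contMDiff_id hc0 hlow hD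
    exact ⟨_, h1, fun x _ v i => h2 x v i⟩

end Pool.Agent.Results.MP_d3ff36_gt.CodimTwo
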