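import Pool.Agent.FCI.Eng
import Pool.Agent.TUB.BJ

/-!
# MP_d3ff36_gt.FlatCubes
-/

open scoped BigOperators Topology ContDiff
open Set
open Pool.Agent.TUB (E besselJ jz)

namespace Pool.Agent.Results.MP_d3ff36_gt.FlatCubes

theorem result {n q : ℕ} (b : Fin n → Fin q) (hb : Function.Surjective b) (a : Fin q → ℝ) (ha : ∀ j, 0 < a j)
    (O : Set (E n)) (hO : IsOpen O) (F : E n → E n) (hF : ContDiffOn ℝ ∞ F O) (R : ℝ) (hR : 0 < R)
    (hsub : ∀ z : E n, (∀ j, ∑ i with b i = j, z i ^ 2 ≤ a j ^ 2) → z ∈ O)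
    (hexp : ∀ z : E n, (∀ j, ∑ i with b i = j, z i ^ 2 ≤ a j ^ 2) →
      ∀ v j, ∑ i with b i = j, v i ^ 2 ≤ ‖fderiv ℝ F z v‖ ^ 2)
    (hball : ∀ z : E n, (∀ j, ∑ i with b i = j, z i ^ 2 < a j ^ 2) → ‖F z‖ ≤ R) :
    1 ≤ n →
    (∀ k : ℕ, 1 ≤ k → IsLeast {x : ℝ | 0 < x ∧ besselJ ((k : ℝ) / 2 - 1) x = 0} (jz ((k : ℝ) / 2 - 1))) ∧
    jz ((n : ℝ) / 2 - 1) ^ 2 / R ^ 2 ≤
      ∑ j, jz (((Finset.univ.filter fun i => b i = j).card : ℝ) / 2 - 1) ^ 2 / a j ^ 2 := by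
  intro hn
  have hsq : ∀ (z : E n) (j : Fin q), ∑ i with b i = j, z i ^ 2 = FCI.sq b z j := fun z j => by
    unfold FCI.sq
    rw [Finset.sum_filter]
  have hz : ∀ k : ℕ, 1 ≤ k → jz ((k : ℝ) / 2 - 1) ^ 2 = Pool.Agent.TUB.jw k := by
    intro k hk
    have hk1 : (1 : ℝ) ≤ k := by exact_mod_cast hk
    rw [(Pool.Agent.TUB.jz_eq hk1).1, Real.sq_sqrt (Pool.Agent.TUB.jw_facts hk1).1.le]
  refine ⟨fun k hk => (Pool.Agent.TUB.jz_eq (by exact_mod_cast hk)).2, ?_⟩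
  have h1 := FCI.flat_core hn hb ha hO (fun z hz => hsub z fun j => by rw [hsq]; exact hz j) hF
    (fun z hz v j => by
      rw [← hsq]
      exact hexp z (fun j => by rw [hsq]; exact hz j) v j) hR
    (fun z hz => hball z fun j => by rw [hsq]; exact hz j)
  rw [hz n hn]
  refine h1.trans (le_of_eq (Finset.sum_congr rfl fun j _ => ?_))
  have hj : 1 ≤ (Finset.univ.filter fun i => b i = j).card := by
    obtain ⟨i, hi⟩ := hb j
    exact Finset.card_pos.2 ⟨i, by simp [hi]⟩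
  rw [hz _ hj]
  rfl

end Pool.Agent.Results.MP_d3ff36_gt.FlatCubes
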