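import Pool.Agent.FCI.Tor

/-!
# MP_d3ff36_gt.SplitNormal
-/

open scoped BigOperators Topology ContDiff Manifold
open Set
open Pool.Agent.TUB (E besselJ jz Imm CurvLE)
open Pool.Agent.FCI

namespace Pool.Agent.Results.MP_d3ff36_gt.SplitNormal

theorem result {m n l k0 : ℕ} (hm : 1 ≤ m) (hmn : n = m + 2 * l + k0) (hmn' : m < n) (X : Type) [TopologicalSpace X]
    [ChartedSpace (E m) X] [IsManifold (𝓡 m) ∞ X] (f : X → E n) (hf : Imm m f) (hball : ∀ x, ‖f x‖ ≤ 1)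
    (c : ℝ) (hc : CurvLE m f c)
    (hw : ∀ D : ℝ, 0 < D → ∃ (p : E m → X) (O : Set (E m)) (e : Nix l k0 → E m → E n),
      ContMDiff 𝓘(ℝ, E m) (𝓡 m) ∞ p ∧ IsOpen O ∧ Cub m ⊆ O ∧
      (∀ x ∈ Cub m, ∀ v i, D * |v i| ≤ ‖fderiv ℝ (f ∘ p) x v‖) ∧ NFr (f ∘ p) O e) :
    jz ((n : ℝ) / 2 - 1) / (l * Real.pi + if k0 = 0 then 0 else jz ((k0 : ℝ) / 2 - 1)) - 1 ≤ c ∧
    2 * jz ((n : ℝ) / 2 - 1) / (((n : ℝ) - m) * Real.pi) - 1 ≤ c := by
  have h := framed hm hmn hf hball hc hw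
  have hS0 : 0 < Scon l k0 := by
    unfold Scon
    have h2 := Real.pi_pos
    rcases Nat.eq_zero_or_pos k0 with hk | hk
    · rw [if_pos hk, add_zero]
      have : 0 < l := by omega
      positivity
    · rw [if_neg hk.ne', sqrt_jw hk]
      have : 0 < jz ((k0 : ℝ) / 2 - 1) := (Pool.Agent.TUB.jz_eq (κ := (k0 : ℝ)) (by exact_mod_cast hk)).2.1.1
      positivity
  have hS : Scon l k0 = l * Real.pi + if k0 = 0 then 0 else jz ((k0 : ℝ) / 2 - 1) := by
    unfold Scon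
    rcases Nat.eq_zero_or_pos k0 with hk | hk
    · rw [if_pos hk, if_pos hk]
    · rw [if_neg hk.ne', if_neg hk.ne', sqrt_jw hk]
  have hjn : 0 < Real.sqrt (Pool.Agent.TUB.jw n) := by
    rw [sqrt_jw (by omega)]
    exact (Pool.Agent.TUB.jz_eq (κ := (n : ℝ)) (by exact_mod_cast (show 1 ≤ n by omega))).2.1.1
  have hc1 : 0 < 1 + c := by
    by_contra hcon
    push Not at hcon
    have := mul_nonpos_of_nonpos_of_nonneg hcon hS0.le
    linarith
  constructor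
  · rw [← hS, sub_le_iff_le_add, div_le_iff₀ hS0, ← sqrt_jw (show 1 ≤ n by omega)]
    linarith
  · refine final_form hmn' (h.trans (mul_le_mul_of_nonneg_left ((Scon_le l k0).trans (le_of_eq ?_)) hc1.le))
    have : (n - m : ℕ) = 2 * l + k0 := by omega
    rw [this]
    push_cast
    ring

end Pool.Agent.Results.MP_d3ff36_gt.SplitNormal
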