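import Pool.Agent.TUB.Main

/-!
# MP_d3ff36_gt.TubeVolume
-/

open scoped BigOperators Topology Manifold ContDiff
open MeasureTheory Filter Set
open Pool.Agent.TUB

namespace Pool.Agent.Results.MP_d3ff36_gt.TubeVolume

theorem result {m n : ℕ} (hmn : m < n) {X : Type*} [TopologicalSpace X] [T2Space X]
    [CompactSpace X] [Nonempty X] [ChartedSpace (E m) X] [IsManifold (𝓡 m) ∞ X] (f : X → E n)
    (hf : Imm m f) (h1 : ∀ x, ‖f x‖ ≤ 1) (c : ℝ) (hc0 : 0 < c) (hc : CurvLE m f c) :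
    (∀ s, 0 < s → s < 1 / c → 0 < tubeVol m f s ∧ tubeVol m f s < ⊤) ∧
    ∀ κ : ℝ, 1 ≤ κ →
      IsLeast {x : ℝ | 0 < x ∧ besselJ (κ / 2 - 1) x = 0} (jz (κ / 2 - 1)) ∧
      ((∀ s t, 0 < s → s ≤ t → t < 1 / c →
          tubeVol m f t * ENNReal.ofReal (s ^ κ) ≤ tubeVol m f s * ENNReal.ofReal (t ^ κ)) →
        jz ((n : ℝ) / 2 - 1) / jz (κ / 2 - 1) - 1 ≤ c ∧
        (κ = (n : ℝ) - m ∨ κ * (κ + 4) ≤ Real.pi ^ 2 * ((n : ℝ) - m) ^ 2 / 2 ∨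
            jz (κ / 2 - 1) ≤ ((n : ℝ) - m) * Real.pi / 2 →
          2 * jz ((n : ℝ) / 2 - 1) / (((n : ℝ) - m) * Real.pi) - 1 ≤ c)) := by
  refine ⟨fun s hs0 hs => ⟨tubeVol_pos f hf hc0 hc hs0 hs, tubeVol_lt_top f hf h1 hc0 hc hs⟩, ?_⟩
  intro κ hκ
  refine ⟨(jz_eq hκ).2, fun hV => ⟨main_ratio (by omega) f hf h1 hc0 hc hκ hV, fun hκ2 => ?_⟩⟩
  exact main_q1 hmn f hf h1 hc0 hc hκ hκ2 hV

end Pool.Agent.Results.MP_d3ff36_gt.TubeVolume
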